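import Pool.Agent.K1H53.EX.Plan2

/-! Existence of the limit semigroup. -/

set_option autoImplicit false

open Filter Topology

namespace Pool.Agent.K1H61.EX

open Pool.Agent.K1H53.EX

section

variable {S : Type} [Fintype S] [DecidableEq S] [TopologicalSpace S] [DiscreteTopology S]

/-- one step changes a function by at most the influences of the two sites -/
theorem norm_T {a : S × S → S × S} {g : C(ℤ → S, ℝ)} {B : ℤ → ℝ} (hB : ∀ x, 0 ≤ B x)
    (hg : ∀ (x : ℤ) (η ζ : ℤ → S), (∀ y, y ≠ x → η y = ζ y) → |g η - g ζ| ≤ B x) (u v : ℤ) :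
    ‖g.comp (TC a u v) - g‖ ≤ B u + B v := by
  rw [ContinuousMap.norm_le _ (add_nonneg (hB u) (hB v))]
  intro η
  rw [ContinuousMap.sub_apply, ContinuousMap.comp_apply, Real.norm_eq_abs]
  show |g (T a u v η) - g η| ≤ _
  unfold T
  split_ifs with h
  · rw [sub_self, abs_zero]
    exact add_nonneg (hB u) (hB v)
  · have h1 := hg v (Function.update (Function.update η u (a (η u, η v)).1) v (a (η u, η v)).2)
      (Function.update η u (a (η u, η v)).1) (fun y hy => Function.update_of_ne hy _ _)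
    have h2 := hg u (Function.update η u (a (η u, η v)).1) η
      (fun y hy => Function.update_of_ne hy _ _)
    calc _ ≤ |g (Function.update (Function.update η u (a (η u, η v)).1) v (a (η u, η v)).2) -
          g (Function.update η u (a (η u, η v)).1)| +
          |g (Function.update η u (a (η u, η v)).1) - g η| := abs_sub_le _ _ _
      _ ≤ B v + B u := add_le_add h1 h2
      _ = B u + B v := add_comm _ _

theorem LF_apply (a : S × S → S × S) (p : ℤ → ℝ) (F : Finset (ℤ × ℤ)) (g : C(ℤ → S, ℝ)) :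
    LF a p F g = ∑ q ∈ F, p (q.2 - q.1) • (g.comp (TC a q.1 q.2) - g) := by
  unfold LF
  rw [_root_.sum_apply]
  rfl

theorem norm_LF {a : S × S → S × S} {p : ℤ → ℝ} (hp : ∀ m, 0 ≤ p m) {F G : Finset (ℤ × ℤ)}
    (hFG : F ⊆ G) {g : C(ℤ → S, ℝ)} {B : ℤ → ℝ} (hB : ∀ x, 0 ≤ B x)
    (hg : ∀ (x : ℤ) (η ζ : ℤ → S), (∀ y, y ≠ x → η y = ζ y) → |g η - g ζ| ≤ B x) :
    ‖LF a p G g - LF a p F g‖ ≤ ∑ q ∈ G \ F, p (q.2 - q.1) * (B q.1 + B q.2) := by
  rw [LF_apply, LF_apply, ← Finset.sum_sdiff hFG, add_sub_cancel_right]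
  refine (norm_sum_le _ _).trans (Finset.sum_le_sum fun q _ => ?_)
  rw [norm_smul, Real.norm_eq_abs, abs_of_nonneg (hp _)]
  exact mul_le_mul_of_nonneg_left (norm_T hB hg _ _) (hp _)

/-- comparison of two finite systems -/
theorem compare (h1 : S_PFC) {a : S × S → S × S} {p : ℤ → ℝ} (hp : ∀ m, 0 ≤ p m)
    {F G : Finset (ℤ × ℤ)} (hFG : F ⊆ G) {f : C(ℤ → S, ℝ)} {B : ℤ → ℝ} (hB : ∀ x, 0 ≤ B x)
    {t₀ : ℝ}
    (hf : ∀ (t : ℝ), 0 ≤ t → t ≤ t₀ → ∀ (x : ℤ) (η ζ : ℤ → S),
        (∀ y, y ≠ x → η y = ζ y) → |PF a p F t f η - PF a p F t f ζ| ≤ B x)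
    {t : ℝ} (ht : 0 ≤ t) (ht0 : t ≤ t₀) :
    ‖PF a p F t f - PF a p G t f‖ ≤ (∑ q ∈ G \ F, p (q.2 - q.1) * (B q.1 + B q.2)) * t := by
  set u : ℝ → C(ℤ → S, ℝ) := fun s => ex (LF a p G) (t - s) (ex (LF a p F) s f) with hu
  have hd : ∀ s : ℝ, HasDerivAt u (ex (LF a p G) (t - s) ((LF a p F) (ex (LF a p F) s f) -
      (LF a p G) (ex (LF a p F) s f))) s := by
    intro s
    have e1 : HasDerivAt (fun s : ℝ => ex (LF a p G) (t - s))
        (-(ex (LF a p G) (t - s) * LF a p G)) s := by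
      have := (ex_deriv (LF a p G) (t - s)).scomp s ((hasDerivAt_id s).const_sub t)
      rw [neg_smul, one_smul] at this
      exact this
    have e2 := ex_apply_deriv' (LF a p F) f s
    have e3 := e1.clm_apply e2
    refine e3.congr_deriv ?_
    rw [map_sub, _root_.neg_apply, mul_apply_eq_comp]
    abel
  have hb : ∀ s ∈ Set.Ico 0 t, ‖ex (LF a p G) (t - s) ((LF a p F) (ex (LF a p F) s f) -
      (LF a p G) (ex (LF a p F) s f))‖ ≤ ∑ q ∈ G \ F, p (q.2 - q.1) * (B q.1 + B q.2) := by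
    intro s hs
    refine ((h1 S a p hp G (t - s) (by linarith [hs.2])).2.1 _).trans ?_
    rw [norm_sub_rev]
    exact norm_LF hp hFG hB (hf s hs.1 (by linarith [hs.2]))
  have h := norm_image_sub_le_of_norm_deriv_le_segment' (f := u)
    (fun s _ => (hd s).hasDerivWithinAt) hb t ⟨ht, le_rfl⟩
  simp only [hu, sub_self, sub_zero, ex_zero, one_apply_eq_self] at h
  exact h

/-- continuous functions almost depend on finitely many coordinates -/
theorem almost_local (f : C(ℤ → S, ℝ)) {ε : ℝ} (hε : 0 < ε) :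
    ∃ Λ : Finset ℤ, ∀ η ζ : ℤ → S, (∀ y ∈ Λ, η y = ζ y) → |f η - f ζ| < ε := by
  classical
  have hI : ∀ η : ℤ → S, ∃ I : Finset ℤ, ∀ ζ : ℤ → S, (∀ y ∈ I, ζ y = η y) →
      |f ζ - f η| < ε / 2 := by
    intro η
    have ho : IsOpen {ζ : ℤ → S | |f ζ - f η| < ε / 2} :=
      isOpen_lt (by fun_prop) continuous_const
    obtain ⟨I, u, h1, h2⟩ := isOpen_pi_iff.1 ho η (by
      show |f η - f η| < ε / 2
      rw [sub_self, abs_zero]; positivity)
    refine ⟨I, fun ζ hζ => h2 ?_⟩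
    intro i hi
    rw [hζ i hi]
    exact (h1 i hi).2
  choose I hI using hI
  have hU : ∀ η : ℤ → S, {ζ : ℤ → S | ∀ y ∈ I η, ζ y = η y} ∈ 𝓝 η := by
    intro η
    have h : {ζ : ℤ → S | ∀ y ∈ I η, ζ y = η y} = ⋂ y ∈ I η, {ζ : ℤ → S | ζ y = η y} := by
      ext ζ
      simp only [Set.mem_iInter]
      rfl
    rw [h, Finset.iInter_mem_sets]
    intro y _
    have hcy : Continuous fun ζ : ℤ → S => ζ y := continuous_apply y
    have ho : IsOpen ((fun ζ : ℤ → S => ζ y) ⁻¹' {η y}) := (isOpen_discrete _).preimage hcy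
    exact ho.mem_nhds rfl
  obtain ⟨t, ht⟩ := isCompact_univ.elim_nhds_subcover _ (fun η _ => hU η)
  refine ⟨t.biUnion I, ?_⟩
  intro η ζ h
  have h1 := ht.2 (Set.mem_univ η)
  rw [Set.mem_iUnion₂] at h1
  obtain ⟨ξ, hξ, h2⟩ := h1
  have h2' : ∀ y ∈ I ξ, η y = ξ y := h2
  have h3 : ∀ y ∈ I ξ, ζ y = ξ y := by
    intro y hy
    rw [← h y (Finset.mem_biUnion.2 ⟨ξ, hξ, hy⟩)]
    exact h2' y hy
  have h4 := hI ξ η h2'
  have h5 := hI ξ ζ h3
  rw [abs_lt] at *
  constructor <;> linarith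

/-- local functions are dense -/
theorem dense_local (f : C(ℤ → S, ℝ)) {ε : ℝ} (hε : 0 < ε) :
    ∃ (f' : C(ℤ → S, ℝ)) (Λ : Finset ℤ), DependsOn (fun η => f' η) (Λ : Set ℤ) ∧
      ‖f - f'‖ ≤ ε := by
  classical
  by_cases hS : Nonempty S
  · obtain ⟨s₀⟩ := hS
    obtain ⟨Λ, hΛ⟩ := almost_local f hε
    set r : C(ℤ → S, ℤ → S) := ⟨fun η y => if y ∈ Λ then η y else s₀, by
      apply continuous_pi
      intro y
      by_cases hy : y ∈ Λ
      · simp only [hy, if_true]; exact continuous_apply y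
      · simp only [hy, if_false]; exact continuous_const⟩ with hr
    have hra : ∀ η y, r η y = if y ∈ Λ then η y else s₀ := fun _ _ => rfl
    refine ⟨f.comp r, Λ, ?_, ?_⟩
    · intro η ζ h
      show f (r η) = f (r ζ)
      congr 1
      funext y
      rw [hra, hra]
      split_ifs with hy
      · exact h y hy
      · rfl
    · rw [ContinuousMap.norm_le _ hε.le]
      intro η
      rw [ContinuousMap.sub_apply, ContinuousMap.comp_apply, Real.norm_eq_abs]
      apply (hΛ _ _ _).le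
      intro y hy
      rw [hra, if_pos hy]
  · refine ⟨f, ∅, ?_, by rw [sub_self, norm_zero]; exact hε.le⟩
    intro η
    exact absurd ⟨η 0⟩ hS

/-- the nets are Cauchy, locally uniformly in the time -/
theorem cauchy (h1 : S_PFC) (h2 : S_INFL) {a : S × S → S × S} {p : ℤ → ℝ} (hp : ∀ m, 0 ≤ p m)
    (hs : Summable p) (f : C(ℤ → S, ℝ)) {t₀ : ℝ} (ht₀ : 0 ≤ t₀) {ε : ℝ} (hε : 0 < ε) :
    ∃ F₀ : Finset (ℤ × ℤ), ∀ G, F₀ ⊆ G → ∀ G', F₀ ⊆ G' → ∀ t, 0 ≤ t → t ≤ t₀ →
      ‖PF a p G t f - PF a p G' t f‖ ≤ ε := by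
  obtain ⟨f', Λ, hdep, hff⟩ := dense_local f (ε := ε / 4) (by positivity)
  obtain ⟨B, hB0, hBs, hB⟩ := h2 S a p hp hs f' Λ hdep t₀ ht₀
  have hsum : Summable fun q : ℤ × ℤ => p (q.2 - q.1) * (B q.1 + B q.2) := by
    have e1 : Summable fun q : ℤ × ℤ => p q.1 * B q.2 := hs.mul_of_nonneg hBs hp hB0
    have e2 : Summable fun q : ℤ × ℤ => p (q.2 - q.1) * B q.1 := by
      let φ : ℤ × ℤ ≃ ℤ × ℤ :=
        { toFun := fun q => (q.2 - q.1, q.1)
          invFun := fun q => (q.2, q.1 + q.2)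
          left_inv := fun q => by ext <;> simp
          right_inv := fun q => by ext <;> simp }
      exact (φ.summable_iff (f := fun q : ℤ × ℤ => p q.1 * B q.2)).2 e1
    have e3 : Summable fun q : ℤ × ℤ => p (q.2 - q.1) * B q.2 := by
      let φ : ℤ × ℤ ≃ ℤ × ℤ :=
        { toFun := fun q => (q.2 - q.1, q.2)
          invFun := fun q => (q.2 - q.1, q.2)
          left_inv := fun q => by ext <;> simp
          right_inv := fun q => by ext <;> simp }
      exact (φ.summable_iff (f := fun q : ℤ × ℤ => p q.1 * B q.2)).2 e1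
    refine (e2.add e3).congr fun q => ?_
    ring
  obtain ⟨F₀, hF₀⟩ := summable_iff_vanishing_norm.1 hsum (ε / (8 * (t₀ + 1))) (by positivity)
  refine ⟨F₀, ?_⟩
  have key : ∀ G, F₀ ⊆ G → ∀ t, 0 ≤ t → t ≤ t₀ → ‖PF a p F₀ t f' - PF a p G t f'‖ ≤ ε / 8 := by
    intro G hG t ht htt
    refine (compare h1 hp hG hB0 (fun t ht htt x η ζ h => hB F₀ t ht htt x η ζ h) ht htt).trans ?_
    have h3 := hF₀ (G \ F₀) Finset.sdiff_disjoint
    have h4 : 0 ≤ ∑ q ∈ G \ F₀, p (q.2 - q.1) * (B q.1 + B q.2) :=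
      Finset.sum_nonneg fun q _ => mul_nonneg (hp _) (add_nonneg (hB0 _) (hB0 _))
    rw [Real.norm_eq_abs, abs_of_nonneg h4, lt_div_iff₀ (by positivity)] at h3
    nlinarith
  intro G hG G' hG' t ht htt
  have k1 := key G hG t ht htt
  have k2 := key G' hG' t ht htt
  have e1 : ‖PF a p G t f - PF a p G t f'‖ ≤ ε / 4 := by
    rw [← map_sub]
    exact ((h1 S a p hp G t ht).2.1 _).trans hff
  have e2 : ‖PF a p G' t f - PF a p G' t f'‖ ≤ ε / 4 := by
    rw [← map_sub]
    exact ((h1 S a p hp G' t ht).2.1 _).trans hff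
  have e3 : PF a p G t f - PF a p G' t f = (PF a p G t f - PF a p G t f') -
      (PF a p F₀ t f' - PF a p G t f') + (PF a p F₀ t f' - PF a p G' t f') -
      (PF a p G' t f - PF a p G' t f') := by abel
  rw [e3]
  calc _ ≤ ‖(PF a p G t f - PF a p G t f') -
      (PF a p F₀ t f' - PF a p G t f') + (PF a p F₀ t f' - PF a p G' t f')‖ +
      ‖PF a p G' t f - PF a p G' t f'‖ := norm_sub_le _ _
    _ ≤ ‖(PF a p G t f - PF a p G t f') -
      (PF a p F₀ t f' - PF a p G t f')‖ + ‖PF a p F₀ t f' - PF a p G' t f'‖ +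
      ‖PF a p G' t f - PF a p G' t f'‖ := by gcongr; exact norm_add_le _ _
    _ ≤ ‖PF a p G t f - PF a p G t f'‖ + ‖PF a p F₀ t f' - PF a p G t f'‖ +
      ‖PF a p F₀ t f' - PF a p G' t f'‖ +
      ‖PF a p G' t f - PF a p G' t f'‖ := by gcongr; exact norm_sub_le _ _
    _ ≤ ε := by linarith

end

theorem t_LIM : S_LIM := by
  classical
  intro h1 h2 S _ _ _ _ a p hp hs
  have hex : ∀ (t : ℝ) (f : C(ℤ → S, ℝ)), ∃ g : C(ℤ → S, ℝ), 0 ≤ t →
      Tendsto (fun F : Finset (ℤ × ℤ) => PF a p F t f) atTop (𝓝 g) := by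
    intro t f
    by_cases ht : 0 ≤ t
    · have hc : CauchySeq fun F : Finset (ℤ × ℤ) => PF a p F t f := by
        rw [Metric.cauchySeq_iff]
        intro ε hε
        obtain ⟨F₀, hF₀⟩ := cauchy (a := a) h1 h2 hp hs f ht (ε := ε / 2) (by positivity)
        refine ⟨F₀, fun G hG G' hG' => ?_⟩
        rw [dist_eq_norm]
        have := hF₀ G hG G' hG' t ht le_rfl
        linarith
      obtain ⟨g, hg⟩ := cauchySeq_tendsto_of_complete hc
      exact ⟨g, fun _ => hg⟩
    · exact ⟨f, fun h => absurd h ht⟩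
  choose g hg using hex
  set P : ℝ → C(ℤ → S, ℝ) →L[ℝ] C(ℤ → S, ℝ) := fun t =>
    if ht : 0 ≤ t then
      LinearMap.mkContinuous
        { toFun := g t
          map_add' := fun f₁ f₂ => by
            have e1 := hg t (f₁ + f₂) ht
            have e2 := (hg t f₁ ht).add (hg t f₂ ht)
            simp only [map_add] at e1
            exact tendsto_nhds_unique e1 e2
          map_smul' := fun c f => by
            have e1 := hg t (c • f) ht
            have e2 := (hg t f ht).const_smul c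
            simp only [map_smul] at e1
            exact tendsto_nhds_unique e1 e2 } 1 (fun f => by
            rw [one_mul]
            exact le_of_tendsto' (hg t f ht).norm fun F => (h1 S a p hp F t ht).2.1 f)
    else 1 with hP
  have hPg : ∀ t, 0 ≤ t → ∀ f, P t f = g t f := by
    intro t ht f
    simp only [hP, dif_pos ht]
    rfl
  have hlim : ∀ t, 0 ≤ t → ∀ f,
      Tendsto (fun F : Finset (ℤ × ℤ) => PF a p F t f) atTop (𝓝 (P t f)) := by
    intro t ht f
    rw [hPg t ht]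
    exact hg t f ht
  refine ⟨P, ⟨hlim, ?_, ?_, ?_, ?_⟩⟩
  · intro f
    have hloc : TendstoLocallyUniformlyOn (fun (F : Finset (ℤ × ℤ)) (t : ℝ) => PF a p F t f)
        (fun t => P t f) atTop (Set.Ici 0) := by
      rw [Metric.tendstoLocallyUniformlyOn_iff]
      intro ε hε t ht
      refine ⟨Set.Ici 0 ∩ Set.Iio (t + 1), inter_mem_nhdsWithin _ (Iio_mem_nhds (by linarith)), ?_⟩
      obtain ⟨F₀, hF₀⟩ := cauchy (a := a) h1 h2 hp hs f (t₀ := t + 1)
        (by have : (0 : ℝ) ≤ t := ht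
            linarith) (ε := ε / 2) (by positivity)
      filter_upwards [eventually_ge_atTop F₀] with G hG
      rintro s ⟨hs0, hs1⟩
      have hs1' : s < t + 1 := hs1
      rw [dist_eq_norm]
      have h3 : ‖P s f - PF a p G s f‖ ≤ ε / 2 := by
        refine le_of_tendsto ((hlim s hs0 f).sub_const _).norm ?_
        filter_upwards [eventually_ge_atTop F₀] with G' hG'
        exact hF₀ G' hG' G hG s hs0 hs1'.le
      linarith
    refine hloc.continuousOn (Filter.Eventually.of_forall fun F => ?_).frequently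
    have hd : Continuous fun t => PF a p F t f :=
      continuous_iff_continuousAt.2 fun t => (ex_apply_deriv (LF a p F) f t).continuousAt
    exact hd.continuousOn
  · intro f
    have e1 := hlim 0 le_rfl f
    have e2 : (fun F : Finset (ℤ × ℤ) => PF a p F 0 f) = fun _ => f := by
      funext F
      unfold PF
      rw [ex_zero]
      rfl
    rw [e2] at e1
    exact tendsto_nhds_unique tendsto_const_nhds e1 |>.symm
  · intro s t hs' ht f
    have e1 := hlim (s + t) (add_nonneg hs' ht) f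
    have e2 : Tendsto (fun F : Finset (ℤ × ℤ) => PF a p F (s + t) f) atTop (𝓝 (P s (P t f))) := by
      have e3 : (fun F : Finset (ℤ × ℤ) => PF a p F (s + t) f) =
          fun F => PF a p F s (PF a p F t f - P t f) + PF a p F s (P t f) := by
        funext F
        rw [← map_add, sub_add_cancel]
        unfold PF
        rw [ex_add]
        rfl
      rw [e3]
      have e4 : Tendsto (fun F : Finset (ℤ × ℤ) => PF a p F s (PF a p F t f - P t f)) atTop
          (𝓝 0) := by
        have e5 : Tendsto (fun F : Finset (ℤ × ℤ) => ‖PF a p F t f - P t f‖) atTop (𝓝 0) :=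
          tendsto_iff_norm_sub_tendsto_zero.1 (hlim t ht f)
        exact squeeze_zero_norm (fun F => (h1 S a p hp F s hs').2.1 _) e5
      have e6 := e4.add (hlim s hs' (P t f))
      rwa [zero_add] at e6
    exact tendsto_nhds_unique e1 e2
  · intro K hK hKc hKs t ht f hf
    refine hK.mem_of_tendsto (hlim t ht f) (Filter.Eventually.of_forall fun F => ?_)
    exact (h1 S a p hp F t ht).1 K hK hKc (fun f hf q _ => hKs f hf q.1 q.2) f hf

end Pool.Agent.K1H61.EX
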